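import Mathlib
import Pool.Agent.TH891.SG.Gal3

/-! Project DV (helper38), piece CHAIN: from one step to `k` steps. -/

set_option autoImplicit false

namespace Pool.Agent.J4.H56.DV

open Finset

theorem chain (k : ℕ) (A : Finset ℕ) (F : Finset ℕ → ℝ) {G e n : ℝ} (hG : 0 ≤ G) (he : 0 ≤ e) (hn : 0 ≤ n)
    (h : ∀ j < k, ∑ S ∈ A.powersetCard j, ∑ t ∈ A \ S, |F (insert t S) - G * F S| ≤ e * (n * (G * A.card) ^ (j + 1))) :
    ∑ D ∈ A.powersetCard k, |F D - G ^ k * F ∅| ≤ k * e * (n * (G * A.card) ^ k) := by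
  induction k with
  | zero => simp
  | succ k ih =>
    have ih' := ih (fun j hj => h j (by omega))
    have hk := h k (by omega)
    have e1 := Pool.Agent.TH891.SG.sum_insert_pairs A k (fun D => |F D - G ^ (k + 1) * F ∅|)
    have hc : (0 : ℝ) ≤ A.card := Nat.cast_nonneg _
    have h1 : ∑ T ∈ A.powersetCard k, ∑ d ∈ A \ T, |F (insert d T) - G ^ (k + 1) * F ∅| ≤
        ∑ T ∈ A.powersetCard k, ∑ d ∈ A \ T, |F (insert d T) - G * F T| +
          G * A.card * ∑ T ∈ A.powersetCard k, |F T - G ^ k * F ∅| := by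
      rw [mul_sum, ← sum_add_distrib]
      apply sum_le_sum
      intro T _
      have h2 : ∑ d ∈ A \ T, |F (insert d T) - G ^ (k + 1) * F ∅| ≤
          ∑ d ∈ A \ T, (|F (insert d T) - G * F T| + G * |F T - G ^ k * F ∅|) := by
        apply sum_le_sum
        intro d _
        have h3 : F (insert d T) - G ^ (k + 1) * F ∅ = (F (insert d T) - G * F T) + G * (F T - G ^ k * F ∅) := by ring
        rw [h3]
        refine (abs_add_le _ _).trans ?_
        rw [abs_mul, abs_of_nonneg hG]
      refine h2.trans ?_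
      rw [sum_add_distrib, sum_const, nsmul_eq_mul]
      have h4 : ((A \ T).card : ℝ) ≤ A.card := by exact_mod_cast card_le_card sdiff_subset
      have h5 : 0 ≤ G * |F T - G ^ k * F ∅| := mul_nonneg hG (abs_nonneg _)
      nlinarith [mul_le_mul_of_nonneg_right h4 h5]
    have h6 : G * A.card * ∑ T ∈ A.powersetCard k, |F T - G ^ k * F ∅| ≤ G * A.card * (k * e * (n * (G * A.card) ^ k)) :=
      mul_le_mul_of_nonneg_left ih' (mul_nonneg hG hc)
    have h7 : ((k : ℝ) + 1) * ∑ D ∈ A.powersetCard (k + 1), |F D - G ^ (k + 1) * F ∅| ≤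
        ((k : ℝ) + 1) * (e * (n * (G * A.card) ^ (k + 1))) := by
      rw [e1]
      refine (h1.trans (add_le_add hk h6)).trans (le_of_eq ?_)
      ring
    have h8 : ∑ D ∈ A.powersetCard (k + 1), |F D - G ^ (k + 1) * F ∅| ≤ e * (n * (G * A.card) ^ (k + 1)) :=
      le_of_mul_le_mul_left h7 (by positivity)
    refine h8.trans ?_
    push_cast
    have h9 : 0 ≤ e * (n * (G * A.card) ^ (k + 1)) := by positivity
    nlinarith [mul_nonneg (Nat.cast_nonneg (α := ℝ) k) h9]

end Pool.Agent.J4.H56.DV
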